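import Mathlib
import Pool.Agent.TEV.Gr
import Pool.Agent.TEV.Ind

/-!
# MP_63d8f9_co: the class sizes agree when one class is independent

Let `G` be a biregular graph with exactly three distinct eigenvalues `θ₀ > θ₁ > θ₂`,
`θ₁ + θ₂ = -1`, in which no two vertices of the larger valency are adjacent, or no two vertices of
the smaller valency are adjacent. Then the two classes have the same size or `G` is the Petersen
cone.
-/

set_option autoImplicit false

namespace Pool.Agent.Results.MP_63d8f9_co.IndependentClass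

open Pool.Agent.TEV

theorem result {V : Type*} [Fintype V] [DecidableEq V] (G : SimpleGraph V) [DecidableRel G.Adj]
    (θ₀ θ₁ θ₂ : ℝ) (k₁ k₂ : ℕ) (hG : BiThree G θ₀ θ₁ θ₂ k₁ k₂) (hsum : θ₁ + θ₂ = -1)
    (hind : (∀ u v, G.degree u = k₁ → G.degree v = k₁ → ¬ G.Adj u v) ∨
      (∀ u v, G.degree u = k₂ → G.degree v = k₂ → ¬ G.Adj u v)) :
    (Finset.univ.filter (fun v => G.degree v = k₁)).card =
        (Finset.univ.filter (fun v => G.degree v = k₂)).card ∨
      Nonempty (G ≃g cone petersen) := by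
  obtain ⟨τ, g, x, y, f, h, W, hPar, hτ, hk1, hk2, ht, hn1, hn2, hA, hD, hcom⟩ :=
    par_of_graph G θ₀ θ₁ θ₂ k₁ k₂ hG hsum
  have key : ∀ k u, G.degree u = k → (∀ u v, G.degree u = k → G.degree v = k → ¬ G.Adj u v) →
      nb G k u = 0 := by
    intro k u hu hi
    rw [nb, Finset.card_eq_zero, Finset.filter_eq_empty_iff]
    intro z hz hdz
    rw [SimpleGraph.mem_neighborFinset] at hz
    exact hi u z hu hdz hz
  apply concl_of_par G θ₀ θ₁ θ₂ k₁ k₂ hG hPar hk1 hk2 hn1 hn2 hcom
  rcases hind with hi | hi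
  · obtain ⟨u, hu⟩ := hG.ex1
    have h1 := hA u hu
    rw [key k₁ u hu hi] at h1
    exact ind1 hPar (by push_cast at h1; linarith)
  · obtain ⟨u, hu⟩ := hG.ex2
    have h1 := hD u hu
    rw [key k₂ u hu hi] at h1
    exact Or.inl (ind2 hPar (by push_cast at h1; linarith))

end Pool.Agent.Results.MP_63d8f9_co.IndependentClass
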