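import Mathlib
import Pool.Agent.TEV.Gr
import Pool.Agent.TEV.Main

/-!
# MP_63d8f9_co: the class sizes agree when `|τ|` has a dominant prime power factor

Let `G` be a biregular graph with exactly three distinct eigenvalues `θ₀ > θ₁ > θ₂`,
`θ₁ + θ₂ = -1`. One of `θ₁, θ₂`, called `τ`, is an integer with
`(k₁ + θ₁ θ₂) (k₂ + θ₁ θ₂) = τ ^ 4`. If `|τ| = p ^ a m` with `p` prime, `p ∤ m` and
`2 m ^ 14 ≤ p ^ a`, or `a = 1` and `3 m ^ 7 ≤ p`, then the two classes have the same size or `G` is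
the Petersen cone. The case `m = 1` is: `|τ|` is a power of a prime.
-/

set_option autoImplicit false

namespace Pool.Agent.Results.MP_63d8f9_co.LargePrimePower

open Pool.Agent.TEV

theorem result {V : Type*} [Fintype V] [DecidableEq V] (G : SimpleGraph V) [DecidableRel G.Adj]
    (θ₀ θ₁ θ₂ : ℝ) (k₁ k₂ : ℕ) (hG : BiThree G θ₀ θ₁ θ₂ k₁ k₂) (hsum : θ₁ + θ₂ = -1) :
    ∃ τ : ℤ, ((τ : ℝ) = θ₁ ∨ (τ : ℝ) = θ₂) ∧
      ((k₁ : ℝ) + θ₁ * θ₂) * ((k₂ : ℝ) + θ₁ * θ₂) = (τ : ℝ) ^ 4 ∧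
      ∀ p a m : ℕ, p.Prime → ¬ p ∣ m → τ.natAbs = p ^ a * m →
        (2 * m ^ 14 ≤ p ^ a ∨ (a = 1 ∧ 3 * m ^ 7 ≤ p ^ a)) →
        (Finset.univ.filter (fun v => G.degree v = k₁)).card =
            (Finset.univ.filter (fun v => G.degree v = k₂)).card ∨
          Nonempty (G ≃g cone petersen) := by
  obtain ⟨τ, g, x, y, f, h, W, hPar, hτ, hk1, hk2, ht, hn1, hn2, -, -, hcom⟩ :=
    par_of_graph G θ₀ θ₁ θ₂ k₁ k₂ hG hsum
  refine ⟨τ, hτ, ?_, ?_⟩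
  · have h1 : (k₁ : ℝ) = g * x ^ 2 + (τ ^ 2 + τ) := by exact_mod_cast hk1
    have h2 : (k₂ : ℝ) = g * y ^ 2 + (τ ^ 2 + τ) := by exact_mod_cast hk2
    have h3 : (g : ℝ) * x * y = τ ^ 2 := by exact_mod_cast hPar.hP
    rw [ht, h1, h2]
    linear_combination (g * x * y + τ ^ 2 : ℝ) * h3
  · intro p a m hp hpm hpa hbig
    exact concl_of_par G θ₀ θ₁ θ₂ k₁ k₂ hG hPar hk1 hk2 hn1 hn2 hcom
      (main_arith hPar p a m hp hpm hpa hbig)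

end Pool.Agent.Results.MP_63d8f9_co.LargePrimePower
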