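import Mathlib
import Pool.Agent.TEV.Mat

/-!
# MP_63d8f9_co: a congruence modulo `4` for the parameters

Let `G` be a biregular graph with exactly three distinct eigenvalues `θ₀ > θ₁ > θ₂`,
`θ₁ + θ₂ = -1`; they are integers. Write `c = θ₀`, and `{a, b} = {θ₁, θ₂}` with `c - a` odd; let
`m, m'` be the multiplicities of `a` and `b`. If no prime `p = 3 mod 4` divides `θ₁ - θ₂`, then the
determinant of the lattice of integral eigenvectors of `a` is known modulo squares and modulo `4`,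
and the `2`-adic type of that lattice (or of its orthogonal complement with the form `A`) gives a
congruence modulo `4`.
-/

set_option autoImplicit false

namespace Pool.Agent.Results.MP_63d8f9_co.Mod4

open Pool.Agent.TEV

theorem result {V : Type*} [Fintype V] [DecidableEq V] (G : SimpleGraph V) [DecidableRel G.Adj]
    (θ₀ θ₁ θ₂ : ℝ) (k₁ k₂ : ℕ) (hG : BiThree G θ₀ θ₁ θ₂ k₁ k₂) (hsum : θ₁ + θ₂ = -1) :
    ∃ (c a b : ℤ) (m m' : ℕ), (c : ℝ) = θ₀ ∧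
      (((a : ℝ) = θ₁ ∧ (b : ℝ) = θ₂) ∨ ((a : ℝ) = θ₂ ∧ (b : ℝ) = θ₁)) ∧ Odd (c - a) ∧
      m + m' + 1 = Fintype.card V ∧ a * m + b * m' + c = 0 ∧ (Even c → Even m) ∧
      (Odd c → Odd m') ∧ ((∀ p : ℕ, p.Prime → p % 4 = 3 → ¬ (p : ℤ) ∣ a - b) →
        ∀ u w : ℕ, Int.gcd (k₁ + a * b) (k₂ + a * b) = u * w →
          (∀ p : ℕ, p.Prime → p ∣ u → (p : ℤ) ∣ c - a) →
          (∀ p : ℕ, p.Prime → p ∣ w → ¬ (p : ℤ) ∣ c - a) →
          (Even c → (c - a) * u ≡ (-1) ^ (m / 2) [ZMOD 4]) ∧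
          (Odd c → b * c * (c - a) * u ≡ (-1) ^ ((m' + 1) / 2) [ZMOD 4])) := by
  obtain ⟨τ, g, x, y, c, z, hτ, hc, hg, hcop, hk1, hk2, hz0, hz, hAA⟩ :=
    mat_of_graph G θ₀ θ₁ θ₂ k₁ k₂ hG hsum
  obtain ⟨u₁, hu₁⟩ := hG.ex1
  have : Nonempty V := ⟨u₁⟩
  have hgcd : Int.gcd (g * x ^ 2) (g * y ^ 2) = g.natAbs := by
    rw [Int.gcd_mul_left, Int.isCoprime_iff_gcd_eq_one.mp (hcop.pow), mul_one]
  have core : ∀ a b : ℤ, a + b = -1 → a * b = -(τ ^ 2 + τ) → a < c → b < c →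
      (((a : ℝ) = θ₁ ∧ (b : ℝ) = θ₂) ∨ ((a : ℝ) = θ₂ ∧ (b : ℝ) = θ₁)) → Odd (c - a) →
      ∃ (c a b : ℤ) (m m' : ℕ), (c : ℝ) = θ₀ ∧
      (((a : ℝ) = θ₁ ∧ (b : ℝ) = θ₂) ∨ ((a : ℝ) = θ₂ ∧ (b : ℝ) = θ₁)) ∧ Odd (c - a) ∧
      m + m' + 1 = Fintype.card V ∧ a * m + b * m' + c = 0 ∧ (Even c → Even m) ∧
      (Odd c → Odd m') ∧ ((∀ p : ℕ, p.Prime → p % 4 = 3 → ¬ (p : ℤ) ∣ a - b) →
        ∀ u w : ℕ, Int.gcd (k₁ + a * b) (k₂ + a * b) = u * w →
          (∀ p : ℕ, p.Prime → p ∣ u → (p : ℤ) ∣ c - a) →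
          (∀ p : ℕ, p.Prime → p ∣ w → ¬ (p : ℤ) ∣ c - a) →
          (Even c → (c - a) * u ≡ (-1) ^ (m / 2) [ZMOD 4]) ∧
          (Odd c → b * c * (c - a) * u ≡ (-1) ^ ((m' + 1) / 2) [ZMOD 4])) := by
    intro a b hab hab2 hac hbc hθ hodd
    obtain ⟨m, m', h1, h2, h3, h4, h5⟩ := mod4_core (G.adjMatrix ℤ) (G.transpose_adjMatrix)
      (fun v => by rw [SimpleGraph.adjMatrix_apply, if_neg (G.loopless.irrefl v)]) z hz0 a b c g
      hab hac hbc hg hz (by rw [hab2, neg_neg]; exact hAA) hodd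
    refine ⟨c, a, b, m, m', hc, hθ, hodd, h1, h2, h3, h4, fun hq u w huw hu hw => ?_⟩
    apply h5 hq u w _ hu hw
    rw [hab2, hk1, hk2] at huw
    have e1 : g * x ^ 2 + (τ ^ 2 + τ) + -(τ ^ 2 + τ) = g * x ^ 2 := by ring
    have e2 : g * y ^ 2 + (τ ^ 2 + τ) + -(τ ^ 2 + τ) = g * y ^ 2 := by ring
    rw [e1, e2, hgcd] at huw
    have e3 : (g.natAbs : ℤ) = u * w := by exact_mod_cast huw
    rw [← e3]
    exact (Int.natAbs_of_nonneg (by omega)).symm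
  have h01 : θ₁ < θ₀ := hG.h01
  have h02 : θ₂ < θ₀ := hG.h12.trans hG.h01
  -- the two integral eigenvalues
  obtain ⟨t, s, hts, hts2, ht, hs⟩ : ∃ t s : ℤ, t + s = -1 ∧ t * s = -(τ ^ 2 + τ) ∧
      (t : ℝ) = θ₁ ∧ (s : ℝ) = θ₂ := by
    rcases hτ with h | h
    · exact ⟨τ, -1 - τ, by ring, by ring, h, by push_cast; linarith⟩
    · exact ⟨-1 - τ, τ, by ring, by ring, by push_cast; linarith, h⟩
  have hct : t < c := by
    have : (t : ℝ) < c := by rw [ht, hc]; exact h01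
    exact_mod_cast this
  have hcs : s < c := by
    have : (s : ℝ) < c := by rw [hs, hc]; exact h02
    exact_mod_cast this
  rcases Int.even_or_odd (c - t) with h | h
  · refine core s t (by rw [add_comm]; exact hts) (by rw [mul_comm]; exact hts2) hcs hct
      (Or.inr ⟨hs, ht⟩) ?_
    obtain ⟨j, hj⟩ := h
    exact ⟨j + t, by omega⟩
  · exact core t s hts hts2 hct hcs (Or.inl ⟨ht, hs⟩) h

/-- The parameters `n₁ = 91`, `n₂ = 195` do not occur. -/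
theorem no_286 {V : Type*} [Fintype V] [DecidableEq V] (G : SimpleGraph V) [DecidableRel G.Adj]
    (hG : BiThree G 110 6 (-7) 150 54) (hV : Fintype.card V = 286) : False := by
  obtain ⟨c, a, b, m, m', hc, hab, hodd, h1, h2, -, -, h3⟩ := result G _ _ _ _ _ hG (by norm_num)
  have hc' : c = 110 := by exact_mod_cast hc
  subst hc'
  have hab' : a = -7 ∧ b = 6 := by
    rcases hab with ⟨ha, hb⟩ | ⟨ha, hb⟩
    · have ha' : a = 6 := by exact_mod_cast ha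
      rw [ha'] at hodd
      exact absurd hodd (by decide)
    · exact ⟨by exact_mod_cast ha, by exact_mod_cast hb⟩
  obtain ⟨rfl, rfl⟩ := hab'
  have hm : m = 140 := by omega
  subst hm
  have h4 := (h3 (by
    intro p hp hp4 hd
    have hd' : p ∣ 13 := by
      have h5 : (p : ℤ) ∣ ((13 : ℕ) : ℤ) := by
        have h6 := (dvd_neg).mpr hd
        norm_num at h6
        exact_mod_cast h6
      exact_mod_cast h5
    rw [(Nat.prime_dvd_prime_iff_eq hp (by norm_num)).mp hd'] at hp4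
    omega) 3 4 (by decide) (by
    intro p hp hd
    rw [(Nat.prime_dvd_prime_iff_eq hp (by norm_num)).mp hd]
    norm_num) (by
    intro p hp hd
    have h5 : p ∣ 2 := hp.dvd_of_dvd_pow (by exact (show p ∣ 2 ^ 2 by exact hd))
    rw [(Nat.prime_dvd_prime_iff_eq hp (by norm_num)).mp h5]
    norm_num)).1 (by decide)
  exact absurd h4 (by decide)

/-- An infinite family of parameters that do not occur. -/
theorem no_family {V : Type*} [Fintype V] [DecidableEq V] (G : SimpleGraph V) [DecidableRel G.Adj]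
    (k : ℕ) (τ : ℤ) (hτ : τ = 2 * k * (k - 1)) (k₁ k₂ : ℕ) (hk1 : (k₁ : ℤ) = 4 * k ^ 4 + τ ^ 2 + τ)
    (hk2 : (k₂ : ℤ) = 4 * (k - 1) ^ 4 + τ ^ 2 + τ)
    (hG : BiThree G (2 * τ ^ 2 - τ - 1 : ℤ) (τ : ℤ) (-τ - 1 : ℤ) k₁ k₂)
    (hV : (Fintype.card V : ℤ) = (2 * k - 1) ^ 4 + 8 * (2 * k - 1) ^ 2 + 1)
    (hq : ∀ p : ℕ, p.Prime → p % 4 = 3 → ¬ (p : ℤ) ∣ 2 * k - 1) : False := by
  obtain ⟨c, a, b, m, m', hc, hab, hodd, h1, h2, -, -, h3⟩ := result G _ _ _ _ _ hG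
    (by push_cast; ring)
  obtain ⟨j, hj⟩ : ∃ j : ℤ, τ = 4 * j := by
    rcases Int.even_or_odd (k : ℤ) with ⟨r, hr⟩ | ⟨r, hr⟩
    · exact ⟨r * (k - 1), by rw [hτ, hr]; ring⟩
    · exact ⟨k * r, by rw [hτ]; linear_combination (2 * (k : ℤ)) * hr⟩
  have hc' : c = 2 * τ ^ 2 - τ - 1 := by exact_mod_cast hc
  have hab' : a = τ ∧ b = -τ - 1 := by
    rcases hab with ⟨ha, hb⟩ | ⟨ha, hb⟩
    · exact ⟨by exact_mod_cast ha, by exact_mod_cast hb⟩
    · exfalso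
      have ha' : a = -τ - 1 := by exact_mod_cast ha
      obtain ⟨i, hi⟩ := hodd
      rw [hc', ha'] at hi
      have h4 : 2 * (τ ^ 2 - i) = 1 := by linear_combination hi
      omega
  obtain ⟨ha, hb⟩ := hab'
  have hQ : (2 * (k : ℤ) - 1) ^ 2 = 2 * τ + 1 := by rw [hτ]; ring
  have hV' : (Fintype.card V : ℤ) = (2 * τ + 1) ^ 2 + 8 * (2 * τ + 1) + 1 := by
    rw [hV, ← hQ]; ring
  have hq0 : 2 * τ + 1 ≠ 0 := by omega
  have h1' : (m : ℤ) + m' + 1 = Fintype.card V := by exact_mod_cast h1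
  have hm' : (m' : ℤ) = 2 * τ ^ 2 + 10 * τ - 1 := by
    apply mul_left_cancel₀ hq0
    rw [hV'] at h1'
    rw [ha, hb, hc'] at h2
    linear_combination τ * h1' - h2
  have h4 := (h3 (by
    intro p hp hp4 hd
    rw [ha, hb] at hd
    have h5 : (p : ℤ) ∣ (2 * (k : ℤ) - 1) ^ 2 := by
      rw [hQ]
      have h6 : τ - (-τ - 1) = 2 * τ + 1 := by ring
      rwa [h6] at hd
    exact hq p hp hp4 ((Nat.prime_iff_prime_int.mp hp).dvd_of_dvd_pow h5)) 1 4 (by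
    have e1 : (k₁ : ℤ) + a * b = 4 * (k : ℤ) ^ 4 := by rw [hk1, ha, hb]; ring
    have e2 : (k₂ : ℤ) + a * b = 4 * ((k : ℤ) - 1) ^ 4 := by rw [hk2, ha, hb]; ring
    rw [e1, e2, Int.gcd_mul_left]
    have h7 : IsCoprime ((k : ℤ) ^ 4) (((k : ℤ) - 1) ^ 4) :=
      (IsCoprime.pow (⟨1, -1, by ring⟩ : IsCoprime (k : ℤ) ((k : ℤ) - 1)))
    rw [Int.isCoprime_iff_gcd_eq_one.mp h7]
    rfl) (by
    intro p hp hd
    exact absurd (Nat.dvd_one.mp hd) hp.one_lt.ne') (by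
    intro p hp hd hd2
    have h5 : p ∣ 2 := hp.dvd_of_dvd_pow (by exact (show p ∣ 2 ^ 2 by exact hd))
    rw [(Nat.prime_dvd_prime_iff_eq hp (by norm_num)).mp h5] at hd2
    obtain ⟨i, hi⟩ := hodd
    obtain ⟨l, hl⟩ := hd2
    push_cast at hl
    omega)).2 (by
    rw [hc', hj]
    exact ⟨16 * j ^ 2 - 2 * j - 1, by ring⟩)
  -- the exponent is even
  have hexp : (m' + 1) / 2 = 2 * ((m' + 1) / 4) := by
    have h8 : (m' : ℤ) + 1 = 4 * (2 * j * (4 * j + 5)) := by rw [hm', hj]; ring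
    omega
  rw [hexp, pow_mul, neg_one_sq, one_pow, ha, hb, hc', hj, Int.modEq_iff_dvd] at h4
  obtain ⟨i, hi⟩ := h4
  push_cast at hi
  have h9 : 4 * (i - (1024 * j ^ 5 - 128 * j ^ 4 - 128 * j ^ 3 + 4 * j ^ 2 + 4 * j)) = 2 := by
    linear_combination -hi
  omega

end Pool.Agent.Results.MP_63d8f9_co.Mod4
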